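import Pool.Agent.H5.EG.Spec2

set_option autoImplicit false

/-! Cauchy's estimate for the coefficients of a power series. -/

namespace Pool.Agent.H230.EG

open PowerSeries Pool.Agent.H5.EG

theorem cauchy : S_cauchy := by
  intro h ρ C hR hρ hρ1 hC n
  have hfp := hasFPowerSeries hR
  have hd : DiffContOnCl ℂ (ev h) (Metric.ball 0 ρ) := by
    apply DifferentiableOn.diffContOnCl
    intro x hx
    have hx' : x ∈ Metric.ball (0 : ℂ) 1 := by
      have := Metric.closure_ball_subset_closedBall hx
      exact Metric.closedBall_subset_ball hρ1 this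
    exact (ev_analytic hR x hx').differentiableAt.differentiableWithinAt
  have h1 : ‖iteratedDeriv n (ev h) 0‖ ≤ n.factorial * C / ρ ^ n := by
    apply Complex.norm_iteratedDeriv_le_of_forall_mem_sphere_norm_le n hρ hd
    intro z hz
    exact hC z (by simpa using hz)
  have h2 : iteratedDeriv n (ev h) 0 = n.factorial * PowerSeries.coeff n h := by
    rw [iteratedDeriv_eq_iteratedFDeriv, ← hfp.factorial_smul 1 n]
    simp
  rw [h2, norm_mul, Complex.norm_natCast, mul_div_assoc] at h1
  have h3 : (0 : ℝ) < n.factorial := by exact_mod_cast n.factorial_pos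
  have h4 := le_of_mul_le_mul_left h1 h3
  rwa [le_div_iff₀ (by positivity)] at h4

end Pool.Agent.H230.EG
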